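import Mathlib

/-!
# An inequality between products of binomial coefficients

`C(a,j) C(b,l) ≤ ⌊n/k⌋ C(n - ⌊n/k⌋, k - 1)` for `a + b = n`, `j + l = k`, `j, l ≥ 1`.
-/

set_option autoImplicit false

namespace Pool.Agent.R628.UF

open Finset

/-- `log ((q + x) / (q + x - 1))` -/
noncomputable def phi (q x : ℝ) : ℝ := Real.log (q + x) - Real.log (q + x - 1)

theorem phi_conv (q x y : ℝ) (hq : 1 ≤ q) (hx : 0 < x) (hy : 0 < y) :
    (x - y) / ((q + x) * (q + x - 1)) ≤ phi q y - phi q x := by
  have h1 : 0 < q + x - 1 := by linarith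
  have h2 : 0 < q + y - 1 := by linarith
  have h3 : 0 < q + x := by linarith
  have h4 : 0 < q + y := by linarith
  have hr : 0 < (q + y) * (q + x - 1) / ((q + y - 1) * (q + x)) := by positivity
  have hl := Real.one_sub_inv_le_log_of_pos hr
  have e1 : Real.log ((q + y) * (q + x - 1) / ((q + y - 1) * (q + x))) = phi q y - phi q x := by
    rw [Real.log_div (by positivity) (by positivity), Real.log_mul h4.ne' h1.ne',
      Real.log_mul h2.ne' h3.ne']
    unfold phi; ring
  have e2 : 1 - ((q + y) * (q + x - 1) / ((q + y - 1) * (q + x)))⁻¹ =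
      (x - y) / ((q + y) * (q + x - 1)) := by
    field_simp
    ring
  rw [e1, e2] at hl
  refine le_trans ?_ hl
  rw [div_le_div_iff₀ (by positivity) (by positivity)]
  have : (x - y) * ((q + x) * (q + x - 1)) - (x - y) * ((q + y) * (q + x - 1)) =
      (x - y) ^ 2 * (q + x - 1) := by ring
  nlinarith [mul_nonneg (sq_nonneg (x - y)) h1.le]

/-- twice the difference of the sums -/
theorem D_nonneg (j l s t : ℕ) (hj : 1 ≤ j) (hl : 1 ≤ l) (hs : s ≤ j) (ht : t ≤ l)
    (hst : s + t + 1 ≤ j + l) (_hjl : 2 ≤ j + l) :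
    (0 : ℝ) ≤ (s : ℝ) * (s + 1) / j + t * (t + 1) / l - (s + t) * (s + t + 1) / ((j : ℝ) + l - 1) := by
  have hj' : (1 : ℝ) ≤ j := by exact_mod_cast hj
  have hl' : (1 : ℝ) ≤ l := by exact_mod_cast hl
  have hk : (0 : ℝ) < (j : ℝ) + l - 1 := by linarith
  have hs' : (s : ℝ) ≤ j := by exact_mod_cast hs
  have ht' : (t : ℝ) ≤ l := by exact_mod_cast ht
  have hst' : (s : ℝ) + t + 1 ≤ j + l := by exact_mod_cast hst
  have hs0 : (0 : ℝ) ≤ s := Nat.cast_nonneg _
  have ht0 : (0 : ℝ) ≤ t := Nat.cast_nonneg _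
  have key : (0 : ℝ) ≤ l * (l - 1) * (s * (s + 1)) + j * (j - 1) * (t * (t + 1)) - 2 * j * l * s * t := by
    rcases Nat.eq_zero_or_pos s with h0 | h0
    · subst h0
      have : (0:ℝ) ≤ j * (j - 1) * (t * (t + 1)) := by
        have : (0:ℝ) ≤ (j:ℝ) - 1 := by linarith
        positivity
      push_cast
      nlinarith
    rcases Nat.eq_zero_or_pos t with h1 | h1
    · subst h1
      have : (0:ℝ) ≤ l * (l - 1) * (s * (s + 1)) := by
        have : (0:ℝ) ≤ (l:ℝ) - 1 := by linarith
        positivity
      push_cast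
      nlinarith
    have hs1 : (1 : ℝ) ≤ s := by exact_mod_cast h0
    have ht1 : (1 : ℝ) ≤ t := by exact_mod_cast h1
    rcases Nat.lt_or_ge s j with h2 | h2
    · rcases Nat.lt_or_ge t l with h3 | h3
      · -- AM-GM case
        have h2' : (s : ℝ) + 1 ≤ j := by exact_mod_cast h2
        have h3' : (t : ℝ) + 1 ≤ l := by exact_mod_cast h3
        -- (j-1)(s+1) ≥ j s, (l-1)(t+1) ≥ l t
        have a1 : (j : ℝ) * s ≤ (j - 1) * (s + 1) := by nlinarith
        have a2 : (l : ℝ) * t ≤ (l - 1) * (t + 1) := by nlinarith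
        have a3 : (j : ℝ) * s * (l * t) ≤ (j - 1) * (s + 1) * ((l - 1) * (t + 1)) :=
          mul_le_mul a1 a2 (by positivity) (le_trans (by positivity) a1)
        set P : ℝ := l * (l - 1) * (s * (s + 1)) with hP
        set Q : ℝ := j * (j - 1) * (t * (t + 1)) with hQ
        have hP0 : 0 ≤ P := by
          have : (0:ℝ) ≤ (l:ℝ) - 1 := by linarith
          positivity
        have hQ0 : 0 ≤ Q := by
          have : (0:ℝ) ≤ (j:ℝ) - 1 := by linarith
          positivity
        have hPQ : (j * l * s * t : ℝ) ^ 2 ≤ P * Q := by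
          have e : P * Q = (j * l * s * t : ℝ) * ((j - 1) * (s + 1) * ((l - 1) * (t + 1))) := by
            rw [hP, hQ]; ring
          rw [e, sq]
          refine mul_le_mul_of_nonneg_left ?_ (by positivity)
          calc (j * l * s * t : ℝ) = j * s * (l * t) := by ring
            _ ≤ _ := a3
        have h5 : (2 * (j * l * s * t : ℝ)) ^ 2 ≤ (P + Q) ^ 2 := by
          nlinarith [sq_nonneg (P - Q)]
        have h6 : 2 * (j * l * s * t : ℝ) ≤ P + Q :=
          abs_le_of_sq_le_sq' h5 (by positivity) |>.2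
        linarith
      · -- t = l, s < j
        have ht2 : (t : ℝ) = l := le_antisymm ht' (by exact_mod_cast h3)
        have h2' : (s : ℝ) + 1 ≤ j := by exact_mod_cast h2
        rw [ht2]
        -- l * [ (l-1) s (s+1) + j (j-1)(l+1) - 2 j l s ]
        have e : (l : ℝ) * (l - 1) * (s * (s + 1)) + j * (j - 1) * (l * (l + 1)) - 2 * j * l * s * l =
            l * ((j - s - 1) * (2 * j + (l - 1) * (j - s))) := by ring
        rw [e]
        have : (0:ℝ) ≤ (l:ℝ) - 1 := by linarith
        have h7 : (0:ℝ) ≤ (j:ℝ) - s - 1 := by linarith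
        have h8 : (0:ℝ) ≤ (j:ℝ) - s := by linarith
        positivity
    · -- s = j, so t < l
      have hs2 : (s : ℝ) = j := le_antisymm hs' (by exact_mod_cast h2)
      have h3' : (t : ℝ) + 1 ≤ l := by
        have : t + 1 ≤ l := by omega
        exact_mod_cast this
      rw [hs2]
      have e : (l : ℝ) * (l - 1) * (j * (j + 1)) + j * (j - 1) * (t * (t + 1)) - 2 * j * l * j * t =
          j * ((l - t - 1) * (2 * l + (j - 1) * (l - t))) := by ring
      rw [e]
      have : (0:ℝ) ≤ (j:ℝ) - 1 := by linarith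
      have h7 : (0:ℝ) ≤ (l:ℝ) - t - 1 := by linarith
      have h8 : (0:ℝ) ≤ (l:ℝ) - t := by linarith
      positivity
  have e : (s : ℝ) * (s + 1) / j + t * (t + 1) / l - (s + t) * (s + t + 1) / ((j : ℝ) + l - 1) =
      (l * (l - 1) * (s * (s + 1)) + j * (j - 1) * (t * (t + 1)) - 2 * j * l * s * t) /
        (j * l * ((j : ℝ) + l - 1)) := by
    field_simp
    ring
  rw [e]
  positivity

/-- the difference of the sums -/
noncomputable def DD (j l s t : ℕ) : ℝ :=
  ((s : ℝ) * (s + 1) / j + t * (t + 1) / l - (s + t) * (s + t + 1) / ((j : ℝ) + l - 1)) / 2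

theorem majo (q : ℝ) (hq : 1 ≤ q) (j l : ℕ) (hj : 1 ≤ j) (hl : 1 ≤ l) : ∀ (r s t : ℕ), s + t = r →
    s ≤ j → t ≤ l → s + t + 1 ≤ j + l → ∀ x : ℝ, 0 < x → (s : ℝ) / j ≤ x → (t : ℝ) / l ≤ x →
    DD j l s t / ((q + x) * (q + x - 1)) ≤
      ∑ i ∈ range (s + t), phi q ((i + 1) / ((j : ℝ) + l - 1)) -
      ∑ i ∈ range s, phi q ((i + 1) / j) - ∑ i ∈ range t, phi q ((i + 1) / l) := by
  have hj' : (1 : ℝ) ≤ j := by exact_mod_cast hj
  have hl' : (1 : ℝ) ≤ l := by exact_mod_cast hl
  have hk : (0 : ℝ) < (j : ℝ) + l - 1 := by linarith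
  intro r
  induction r with
  | zero =>
    intro s t hst hs ht _ x hx _ _
    have h1 : s = 0 := by omega
    have h2 : t = 0 := by omega
    subst h1; subst h2
    simp [DD]
  | succ r ih =>
    intro s t hst hs ht hk1 x hx hsx htx
    -- mono in x
    have hmono : ∀ x0 : ℝ, 0 < x0 → x0 ≤ x →
        DD j l s t / ((q + x) * (q + x - 1)) ≤ DD j l s t / ((q + x0) * (q + x0 - 1)) := by
      intro x0 hx0 hx0x
      have hD : 0 ≤ DD j l s t := by
        unfold DD
        exact div_nonneg (D_nonneg j l s t hj hl hs ht hk1 (by omega)) (by norm_num)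
      have h1 : 0 < q + x0 - 1 := by linarith
      have h2 : 0 < q + x0 := by linarith
      refine div_le_div_of_nonneg_left hD (by positivity) ?_
      exact mul_le_mul (by linarith) (by linarith) h1.le (by linarith)
    rcases le_total ((t : ℝ) / l) ((s : ℝ) / j) with hc | hc
    · -- remove s
      have hs0 : s ≠ 0 := by
        rintro rfl
        have ht0 : t ≠ 0 := by omega
        have : (0:ℝ) < (t : ℝ) / l := by
          have : (0:ℝ) < t := by exact_mod_cast Nat.pos_of_ne_zero ht0
          positivity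
        simp at hc
        linarith
      obtain ⟨s', rfl⟩ : ∃ s', s = s' + 1 := ⟨s - 1, by omega⟩
      set x0 : ℝ := ((s' + 1 : ℕ) : ℝ) / j with hx0
      have hx0p : 0 < x0 := by rw [hx0]; positivity
      refine (hmono x0 hx0p hsx).trans ?_
      have h1 := ih s' t (by omega) (by omega) ht (by omega) x0 hx0p
        (by rw [hx0]; gcongr; simp) hc
      have hy : (0:ℝ) < ((s' + t : ℕ) + 1 : ℝ) / ((j : ℝ) + l - 1) := by positivity
      have h2 := phi_conv q x0 (((s' + t : ℕ) + 1 : ℝ) / ((j : ℝ) + l - 1)) hq hx0p hy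
      have e1 : s' + 1 + t = (s' + t) + 1 := by ring
      rw [e1, sum_range_succ, sum_range_succ _ s']
      have e2 : DD j l (s' + 1) t / ((q + x0) * (q + x0 - 1)) =
          DD j l s' t / ((q + x0) * (q + x0 - 1)) +
          (x0 - ((s' + t : ℕ) + 1 : ℝ) / ((j : ℝ) + l - 1)) / ((q + x0) * (q + x0 - 1)) := by
        rw [← add_div]
        congr 1
        rw [hx0]
        unfold DD
        push_cast
        field_simp
        ring
      rw [e2]
      have e3 : x0 = ((s' : ℝ) + 1) / j := by rw [hx0]; push_cast; ring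
      rw [← e3]
      linarith
    · -- remove t
      have ht0 : t ≠ 0 := by
        rintro rfl
        have hs0 : s ≠ 0 := by omega
        have : (0:ℝ) < (s : ℝ) / j := by
          have : (0:ℝ) < s := by exact_mod_cast Nat.pos_of_ne_zero hs0
          positivity
        simp at hc
        linarith
      obtain ⟨t', rfl⟩ : ∃ t', t = t' + 1 := ⟨t - 1, by omega⟩
      set x0 : ℝ := ((t' + 1 : ℕ) : ℝ) / l with hx0
      have hx0p : 0 < x0 := by rw [hx0]; positivity
      refine (hmono x0 hx0p htx).trans ?_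
      have h1 := ih s t' (by omega) hs (by omega) (by omega) x0 hx0p hc
        (by rw [hx0]; gcongr; simp)
      have hy : (0:ℝ) < ((s + t' : ℕ) + 1 : ℝ) / ((j : ℝ) + l - 1) := by positivity
      have h2 := phi_conv q x0 (((s + t' : ℕ) + 1 : ℝ) / ((j : ℝ) + l - 1)) hq hx0p hy
      have e1 : s + (t' + 1) = (s + t') + 1 := by ring
      rw [e1, sum_range_succ, sum_range_succ _ t']
      have e2 : DD j l s (t' + 1) / ((q + x0) * (q + x0 - 1)) =
          DD j l s t' / ((q + x0) * (q + x0 - 1)) +
          (x0 - ((s + t' : ℕ) + 1 : ℝ) / ((j : ℝ) + l - 1)) / ((q + x0) * (q + x0 - 1)) := by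
        rw [← add_div]
        congr 1
        rw [hx0]
        unfold DD
        push_cast
        field_simp
        ring
      rw [e2]
      have e3 : x0 = ((t' : ℝ) + 1) / l := by rw [hx0]; push_cast; ring
      rw [← e3]
      linarith

/-- one step for the binomial coefficient -/
theorem log_choose_succ (m j : ℕ) (h : j ≤ m) : Real.log ((m + 1).choose j) =
    Real.log (m.choose j) + (Real.log ((m : ℝ) + 1) - Real.log ((m : ℝ) + 1 - j)) := by
  have h1 := Nat.choose_mul_succ_eq m j
  have h2 : ((m.choose j : ℕ) : ℝ) * ((m : ℝ) + 1) = ((m + 1).choose j : ℕ) * ((m : ℝ) + 1 - j) := by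
    have := congrArg (Nat.cast : ℕ → ℝ) h1
    push_cast [Nat.cast_sub (show j ≤ m + 1 by omega)] at this
    exact this
  have p1 : (0:ℝ) < m.choose j := by exact_mod_cast Nat.choose_pos h
  have p2 : (0:ℝ) < (m + 1).choose j := by exact_mod_cast Nat.choose_pos (by omega)
  have p3 : (0:ℝ) < (m : ℝ) + 1 - j := by
    have : (j : ℝ) ≤ m := by exact_mod_cast h
    linarith
  have h3 := congrArg Real.log h2
  rw [Real.log_mul p1.ne' (by positivity), Real.log_mul p2.ne' p3.ne'] at h3
  linarith

theorem log_choose_block (q j : ℕ) (hq : 1 ≤ q) (hj : 1 ≤ j) : ∀ s : ℕ,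
    Real.log ((q * j + s).choose j) =
      Real.log ((q * j).choose j) + ∑ i ∈ range s, phi q ((i + 1) / j) := by
  intro s
  have hqj : j ≤ q * j := Nat.le_mul_of_pos_left j hq
  induction s with
  | zero => simp
  | succ s ih =>
    rw [sum_range_succ, ← add_assoc, ← add_assoc, ← ih, log_choose_succ (q * j + s) j (by omega)]
    congr 1
    have hj' : (1 : ℝ) ≤ j := by exact_mod_cast hj
    have hq' : (1 : ℝ) ≤ q := by exact_mod_cast hq
    unfold phi
    have e1 : ((q * j + s : ℕ) : ℝ) + 1 = j * ((q : ℝ) + (s + 1) / j) := by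
      push_cast; field_simp; ring
    have e2 : ((q * j + s : ℕ) : ℝ) + 1 - j = j * ((q : ℝ) + (s + 1) / j - 1) := by
      push_cast; field_simp; ring
    have hp : (0:ℝ) < ((s : ℝ) + 1) / j := by positivity
    have hz : (0:ℝ) < (q : ℝ) + (s + 1) / j - 1 := by linarith
    rw [e2, e1, Real.log_mul (by positivity) (by positivity), Real.log_mul (by positivity)
      hz.ne']
    ring

/-- the main inequality in a block -/
theorem block (q j l : ℕ) (hq : 1 ≤ q) (hj : 1 ≤ j) (hl : 1 ≤ l)
    (h0 : Real.log ((q * j).choose j) + Real.log ((q * l).choose l) ≤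
      Real.log q + Real.log ((q * (j + l - 1)).choose (j + l - 1)))
    (s t : ℕ) (hs : s ≤ j) (ht : t ≤ l) (hst : s + t + 1 ≤ j + l) :
    Real.log ((q * j + s).choose j) + Real.log ((q * l + t).choose l) ≤
      Real.log q + Real.log ((q * (j + l - 1) + (s + t)).choose (j + l - 1)) := by
  rw [log_choose_block q j hq hj, log_choose_block q l hq hl,
    log_choose_block q (j + l - 1) hq (by omega)]
  have hq' : (1 : ℝ) ≤ q := by exact_mod_cast hq
  have hj' : (1 : ℝ) ≤ j := by exact_mod_cast hj
  have hl' : (1 : ℝ) ≤ l := by exact_mod_cast hl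
  set x : ℝ := max ((s : ℝ) / j) ((t : ℝ) / l) + 1 with hx
  have hx0 : 0 < x := by
    have : (0:ℝ) ≤ (s : ℝ) / j := by positivity
    have := le_max_left ((s : ℝ) / j) ((t : ℝ) / l)
    linarith
  have h1 := majo q hq' j l hj hl (s + t) s t rfl hs ht hst x hx0
    (by have := le_max_left ((s : ℝ) / j) ((t : ℝ) / l); linarith)
    (by have := le_max_right ((s : ℝ) / j) ((t : ℝ) / l); linarith)
  have hD : 0 ≤ DD j l s t := by
    unfold DD
    exact div_nonneg (D_nonneg j l s t hj hl hs ht hst (by omega)) (by norm_num)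
  have h2 : 0 ≤ DD j l s t / (((q : ℝ) + x) * (q + x - 1)) := by
    apply div_nonneg hD
    have : (0:ℝ) < q + x - 1 := by linarith
    positivity
  have e : ((j + l - 1 : ℕ) : ℝ) = (j : ℝ) + l - 1 := by
    rw [Nat.cast_sub (by omega)]; push_cast; ring
  rw [e]
  linarith

theorem start (j l : ℕ) (hj : 1 ≤ j) (hl : 1 ≤ l) : ∀ q : ℕ, 1 ≤ q →
    Real.log ((q * j).choose j) + Real.log ((q * l).choose l) ≤
      Real.log q + Real.log ((q * (j + l - 1)).choose (j + l - 1)) := by
  intro q hq
  induction q, hq using Nat.le_induction with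
  | base => simp
  | succ q hq ih =>
    have h1 := block q j l hq hj hl ih (j - 1) l (by omega) le_rfl (by omega)
    have e1 : q * j + (j - 1) + 1 = (q + 1) * j := by
      have : 1 ≤ j := hj
      have h2 : (q + 1) * j = q * j + j := by ring
      omega
    have e2 : q * l + l = (q + 1) * l := by ring
    have e3 : q * (j + l - 1) + (j - 1 + l) = (q + 1) * (j + l - 1) := by
      have h2 : (q + 1) * (j + l - 1) = q * (j + l - 1) + (j + l - 1) := by ring
      omega
    have hqj : j ≤ q * j := Nat.le_mul_of_pos_left j hq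
    have h3 := log_choose_succ (q * j + (j - 1)) j (by omega)
    rw [e1] at h3
    rw [e2, e3] at h1
    rw [h3]
    have hq' : (1 : ℝ) ≤ q := by exact_mod_cast hq
    have hj' : (1 : ℝ) ≤ j := by exact_mod_cast hj
    have e4 : ((q * j + (j - 1) : ℕ) : ℝ) + 1 = j * ((q : ℝ) + 1) := by
      push_cast [Nat.cast_sub hj]; ring
    have e5 : (j : ℝ) * ((q : ℝ) + 1) - j = j * q := by ring
    rw [e4, e5, Real.log_mul (by positivity) (by positivity), Real.log_mul (by positivity)
      (by positivity)]
    push_cast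
    linarith

theorem in_block (q j l s t : ℕ) (hq : 1 ≤ q) (hj : 1 ≤ j) (hl : 1 ≤ l) (hs : s ≤ j) (ht : t ≤ l)
    (hst : s + t + 1 ≤ j + l) :
    (q * j + s).choose j * (q * l + t).choose l ≤
      q * (q * (j + l - 1) + (s + t)).choose (j + l - 1) := by
  have h := block q j l hq hj hl (start j l hj hl q hq) s t hs ht hst
  have hqj : j ≤ q * j := Nat.le_mul_of_pos_left j hq
  have hql : l ≤ q * l := Nat.le_mul_of_pos_left l hq
  have hqk : (j + l - 1) ≤ q * (j + l - 1) := Nat.le_mul_of_pos_left _ hq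
  have p1 : (0:ℝ) < (q * j + s).choose j := by exact_mod_cast Nat.choose_pos (by omega)
  have p2 : (0:ℝ) < (q * l + t).choose l := by exact_mod_cast Nat.choose_pos (by omega)
  have p3 : (0:ℝ) < (q * (j + l - 1) + (s + t)).choose (j + l - 1) := by
    exact_mod_cast Nat.choose_pos (by omega)
  have p4 : (0:ℝ) < q := by exact_mod_cast hq
  rw [← Real.log_mul p1.ne' p2.ne', ← Real.log_mul p4.ne' p3.ne',
    Real.log_le_log_iff (by positivity) (by positivity)] at h
  exact_mod_cast h

/-- one step of unimodality -/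
theorem step (a b j l : ℕ) (h : (a + 1) * l ≤ (b + 1) * j) :
    a.choose j * (b + 1).choose l ≤ (a + 1).choose j * b.choose l := by
  rcases Nat.lt_or_ge a j with h1 | h1
  · rw [Nat.choose_eq_zero_of_lt h1]; simp
  rcases Nat.lt_or_ge (b + 1) l with h2 | h2
  · rw [Nat.choose_eq_zero_of_lt h2]; simp
  have e1 := Nat.choose_mul_succ_eq a j
  have e2 := Nat.choose_mul_succ_eq b l
  rcases Nat.eq_or_lt_of_le h2 with h3 | h3
  · exfalso
    subst h3
    have : a + 1 ≤ j := by
      by_contra hc
      have hc' : j < a + 1 := by omega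
      nlinarith
    omega
  obtain ⟨u, hu⟩ : ∃ u, a + 1 = j + u := ⟨a + 1 - j, by omega⟩
  obtain ⟨v, hv⟩ : ∃ v, b + 1 = l + v := ⟨b + 1 - l, by omega⟩
  have hu' : a + 1 - j = u := by omega
  have hv' : b + 1 - l = v := by omega
  rw [hu'] at e1
  rw [hv'] at e2
  have hu0 : 0 < u := by omega
  have hv0 : 0 < v := by omega
  -- multiply by u v
  refine le_of_mul_le_mul_left (a := u * v) ?_ (Nat.mul_pos hu0 hv0)
  calc u * v * (a.choose j * (b + 1).choose l) = u * a.choose j * ((b + 1).choose l * v) := by ring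
    _ = u * a.choose j * (b.choose l * (b + 1)) := by rw [← e2]
    _ = (a.choose j * b.choose l) * (u * (b + 1)) := by ring
    _ ≤ (a.choose j * b.choose l) * (v * (a + 1)) := by
        refine Nat.mul_le_mul_left _ ?_
        rw [hu, hv] at h ⊢
        nlinarith
    _ = v * b.choose l * (a.choose j * (a + 1)) := by ring
    _ = v * b.choose l * ((a + 1).choose j * u) := by rw [e1]
    _ = u * v * ((a + 1).choose j * b.choose l) := by ring

theorem up (j l : ℕ) : ∀ (d a b : ℕ), (a + d) * l ≤ (b + 1) * j →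
    a.choose j * (b + d).choose l ≤ (a + d).choose j * b.choose l := by
  intro d
  induction d with
  | zero => intro a b _; simp
  | succ d ih =>
    intro a b h
    have h1 := step a (b + d) j l (by nlinarith)
    have h2 := ih (a + 1) b (by rw [show a + 1 + d = a + (d + 1) by ring]; exact h)
    calc a.choose j * (b + (d + 1)).choose l = a.choose j * (b + d + 1).choose l := by ring_nf
      _ ≤ (a + 1).choose j * (b + d).choose l := h1
      _ ≤ (a + 1 + d).choose j * b.choose l := h2
      _ = (a + (d + 1)).choose j * b.choose l := by ring_nf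

/-- **Inequality for products of two binomial coefficients.** -/
theorem prod_le (n k a b j l : ℕ) (hab : a + b = n) (hjl : j + l = k) (hj : 1 ≤ j) (hl : 1 ≤ l) :
    a.choose j * b.choose l ≤ n / k * (n - n / k).choose (k - 1) := by
  rcases Nat.lt_or_ge a j with h1 | h1
  · rw [Nat.choose_eq_zero_of_lt h1]; simp
  rcases Nat.lt_or_ge b l with h2 | h2
  · rw [Nat.choose_eq_zero_of_lt h2]; simp
  subst hjl
  set q := n / (j + l) with hq
  set r := n % (j + l) with hr
  have hn : (j + l) * q + r = n := Nat.div_add_mod n (j + l)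
  have hrk : r < j + l := Nat.mod_lt _ (by omega)
  have hq1 : 1 ≤ q := by
    rw [hq]; exact Nat.div_pos (by omega) (by omega)
  have hnq : n - q = q * (j + l - 1) + r := by
    have : (j + l) * q = q * (j + l - 1) + q := by
      obtain ⟨m, hm⟩ : ∃ m, j + l = m + 1 := ⟨j + l - 1, by omega⟩
      rw [hm]; simp; ring
    omega
  rw [hnq]
  have hjq : q * j + q * l + r = n := by rw [← hn]; ring
  -- final comparison
  have fin : ∀ s t : ℕ, s ≤ j → t ≤ l → s + t = r → (q * j + s).choose j * (q * l + t).choose l ≤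
      q * (q * (j + l - 1) + r).choose (j + l - 1) := by
    intro s t hs ht hst
    have := in_block q j l s t hq1 hj hl hs ht (by omega)
    rwa [hst] at this
  -- lower end
  rcases Nat.lt_or_ge a (q * j + (r - l)) with c1 | c1
  · -- go up
    have hb : q * l + (r - (r - l)) ≤ b := by omega
    obtain ⟨d, hd⟩ : ∃ d, a + d = q * j + (r - l) := ⟨q * j + (r - l) - a, by omega⟩
    have hbd : b = q * l + (r - (r - l)) + d := by omega
    refine le_trans ?_ (fin (r - l) (r - (r - l)) (by omega) (by omega) (by omega))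
    rw [← hd]
    conv_lhs => rw [hbd]
    apply up
    rw [hd]
    rcases Nat.lt_or_ge l r with c2 | c2
    · have e1 : r - (r - l) = l := by omega
      rw [e1]
      have e2 : r - l ≤ j := by omega
      calc (q * j + (r - l)) * l ≤ (q * j + j) * l := by gcongr
        _ = (q * l + l) * j := by ring
        _ ≤ (q * l + l + 1) * j := Nat.mul_le_mul_right _ (by omega)
    · have e1 : r - l = 0 := by omega
      rw [e1]
      calc (q * j + 0) * l = (q * l) * j := by ring
        _ ≤ (q * l + (r - 0) + 1) * j := Nat.mul_le_mul_right _ (by omega)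
  rcases Nat.lt_or_ge b (q * l + (r - j)) with c2 | c2
  · -- symmetric
    have ha : q * j + (r - (r - j)) ≤ a := by omega
    obtain ⟨d, hd⟩ : ∃ d, b + d = q * l + (r - j) := ⟨q * l + (r - j) - b, by omega⟩
    have had : a = q * j + (r - (r - j)) + d := by omega
    refine le_trans ?_ (fin (r - (r - j)) (r - j) (by omega) (by omega) (by omega))
    rw [← hd]
    conv_lhs => rw [had]
    rw [mul_comm, mul_comm ((q * j + (r - (r - j))).choose j)]
    apply up
    rw [hd]
    rcases Nat.lt_or_ge j r with c3 | c3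
    · have e1 : r - (r - j) = j := by omega
      rw [e1]
      have e2 : r - j ≤ l := by omega
      calc (q * l + (r - j)) * j ≤ (q * l + l) * j := by gcongr
        _ = (q * j + j) * l := by ring
        _ ≤ (q * j + j + 1) * l := Nat.mul_le_mul_right _ (by omega)
    · have e1 : r - j = 0 := by omega
      rw [e1]
      calc (q * l + 0) * j = (q * j) * l := by ring
        _ ≤ (q * j + (r - 0) + 1) * l := Nat.mul_le_mul_right _ (by omega)
  · -- in the block
    have ha : a = q * j + (a - q * j) := by omega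
    have hb : b = q * l + (b - q * l) := by omega
    rw [ha, hb]
    exact fin _ _ (by omega) (by omega) (by omega)

end Pool.Agent.R628.UF
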