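import Mathlib

/-!
# Zero-sum sets of `k` nonzero real numbers: an LYM-type inequality
-/

set_option autoImplicit false

namespace Pool.Agent.R628.UF

open Finset Fintype

/-- two zero-sum sets of equal type cannot be compared in the twisted order -/
theorem eq_of_twisted {n : ℕ} (x : Fin n → ℝ) (hx : ∀ i, x i ≠ 0) (s t : Finset (Fin n))
    (hs : ∑ i ∈ s, x i = 0) (ht : ∑ i ∈ t, x i = 0)
    (h1 : ∀ i ∈ s, x i < 0 → i ∈ t) (h2 : ∀ i ∈ t, 0 < x i → i ∈ s) : s = t := by
  have h := Finset.sum_sdiff_sub_sum_sdiff (s₁ := s) (s₂ := t) (f := x)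
  rw [hs, ht] at h
  have ha : ∀ i ∈ t \ s, x i < 0 := by
    intro i hi
    rw [mem_sdiff] at hi
    rcases lt_trichotomy (x i) 0 with h3 | h3 | h3
    · exact h3
    · exact absurd h3 (hx i)
    · exact absurd (h2 i hi.1 h3) hi.2
  have hb : ∀ i ∈ s \ t, 0 < x i := by
    intro i hi
    rw [mem_sdiff] at hi
    rcases lt_trichotomy (x i) 0 with h3 | h3 | h3
    · exact absurd (h1 i hi.1 h3) hi.2
    · exact absurd h3 (hx i)
    · exact h3
  have hb' : 0 ≤ ∑ i ∈ s \ t, x i := sum_nonneg fun i hi => (hb i hi).le
  have ha' : ∑ i ∈ t \ s, x i ≤ 0 := sum_nonpos fun i hi => (ha i hi).le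
  have e1 : ∑ i ∈ t \ s, x i = 0 := by linarith
  have e2 : ∑ i ∈ s \ t, x i = 0 := by linarith
  have f1 : t \ s = ∅ := by
    by_contra hne
    have := sum_neg ha (nonempty_iff_ne_empty.2 hne)
    linarith
  have f2 : s \ t = ∅ := by
    by_contra hne
    have := sum_pos hb (nonempty_iff_ne_empty.2 hne)
    linarith
  exact Subset.antisymm (sdiff_eq_empty_iff_subset.1 f2) (sdiff_eq_empty_iff_subset.1 f1)

/-- the zero-sum sets of size `k` -/
noncomputable def Z (n k : ℕ) (x : Fin n → ℝ) : Finset (Finset (Fin n)) :=
  {s : Finset (Fin n) | s.card = k ∧ ∑ i ∈ s, x i = 0}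

theorem card_add {n : ℕ} (x : Fin n → ℝ) (hx : ∀ i, x i ≠ 0) (s : Finset (Fin n)) :
    (s.subtype fun i => x i < 0).card + (s.subtype fun i => 0 < x i).card = s.card := by
  rw [card_subtype, card_subtype, ← card_union_of_disjoint]
  · congr 1
    ext i
    simp only [mem_union, mem_filter]
    constructor
    · rintro (h | h) <;> exact h.1
    · intro h
      rcases lt_trichotomy (x i) 0 with h3 | h3 | h3
      · exact Or.inl ⟨h, h3⟩
      · exact absurd h3 (hx i)
      · exact Or.inr ⟨h, h3⟩
  · rw [disjoint_left]
    intro i hi hj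
    rw [mem_filter] at hi hj
    linarith [hi.2, hj.2]

theorem nonempty_neg {n : ℕ} (x : Fin n → ℝ) (hx : ∀ i, x i ≠ 0) (s : Finset (Fin n))
    (hs : ∑ i ∈ s, x i = 0) (h0 : s.Nonempty) : 1 ≤ (s.subtype fun i => x i < 0).card := by
  by_contra hc
  have h1 : (s.subtype fun i => x i < 0) = ∅ := card_eq_zero.1 (by omega)
  have h2 : ∀ i ∈ s, 0 < x i := by
    intro i hi
    rcases lt_trichotomy (x i) 0 with h3 | h3 | h3
    · have : (⟨i, h3⟩ : {i // x i < 0}) ∈ (s.subtype fun i => x i < 0) := mem_subtype.2 hi
      rw [h1] at this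
      exact absurd this (notMem_empty _)
    · exact absurd h3 (hx i)
    · exact h3
  have := sum_pos h2 h0
  linarith

theorem nonempty_pos {n : ℕ} (x : Fin n → ℝ) (hx : ∀ i, x i ≠ 0) (s : Finset (Fin n))
    (hs : ∑ i ∈ s, x i = 0) (h0 : s.Nonempty) : 1 ≤ (s.subtype fun i => 0 < x i).card := by
  by_contra hc
  have h1 : (s.subtype fun i => 0 < x i) = ∅ := card_eq_zero.1 (by omega)
  have h2 : ∀ i ∈ s, x i < 0 := by
    intro i hi
    rcases lt_trichotomy (x i) 0 with h3 | h3 | h3
    · exact h3
    · exact absurd h3 (hx i)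
    · have : (⟨i, h3⟩ : {i // 0 < x i}) ∈ (s.subtype fun i => 0 < x i) := mem_subtype.2 hi
      rw [h1] at this
      exact absurd this (notMem_empty _)
  have := sum_neg h2 h0
  linarith

/-- **LYM-type bound.** -/
theorem card_Z_le {n k : ℕ} (hk : 1 ≤ k) (x : Fin n → ℝ) (hx : ∀ i, x i ≠ 0) (W : ℕ)
    (hW : ∀ a b j l : ℕ, a + b = n → j + l = k → 1 ≤ j → 1 ≤ l → a.choose j * b.choose l ≤ W) :
    (Z n k x).card ≤ W := by
  classical
  set A := {i : Fin n // x i < 0} with hA
  set B := {i : Fin n // 0 < x i} with hB
  have hcard : card A + card B = n := by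
    have := card_add x hx (univ : Finset (Fin n))
    rw [card_subtype, card_subtype] at this
    rw [Fintype.card_subtype, Fintype.card_subtype]
    simpa using this
  let P : Finset (Fin n) → Finset (Numbering A × Numbering B) := fun s =>
    Numbering.prefixed (s.subtype fun i => x i < 0) ×ˢ Numbering.prefixed (s.subtype fun i => 0 < x i)
  have hdisj : (↑(Z n k x) : Set (Finset (Fin n))).PairwiseDisjoint P := by
    intro s hs t ht hst
    simp only [Z, coe_filter, mem_univ, true_and, Set.mem_ofPred_eq] at hs ht
    rw [Function.onFun, disjoint_left]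
    rintro ⟨f, g⟩ h1 h2
    apply hst
    simp only [P, mem_product, Numbering.mem_prefixed] at h1 h2
    have c1 := card_add x hx s
    have c2 := card_add x hx t
    rcases le_total (s.subtype fun i => x i < 0).card (t.subtype fun i => x i < 0).card with hc | hc
    · have i1 := h1.1.subset_of_card_le_card h2.1 hc
      have i2 := h2.2.subset_of_card_le_card h1.2 (by omega)
      refine eq_of_twisted x hx s t hs.2 ht.2 ?_ ?_
      · intro i hi hn
        exact mem_subtype.1 (i1 (mem_subtype.2 (show ((⟨i, hn⟩ : A) : Fin n) ∈ s from hi)))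
      · intro i hi hn
        exact mem_subtype.1 (i2 (mem_subtype.2 (show ((⟨i, hn⟩ : B) : Fin n) ∈ t from hi)))
    · have i1 := h2.1.subset_of_card_le_card h1.1 hc
      have i2 := h1.2.subset_of_card_le_card h2.2 (by omega)
      refine (eq_of_twisted x hx t s ht.2 hs.2 ?_ ?_).symm
      · intro i hi hn
        exact mem_subtype.1 (i1 (mem_subtype.2 (show ((⟨i, hn⟩ : A) : Fin n) ∈ t from hi)))
      · intro i hi hn
        exact mem_subtype.1 (i2 (mem_subtype.2 (show ((⟨i, hn⟩ : B) : Fin n) ∈ s from hi)))
  have hbi := card_biUnion hdisj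
  have hle : ∑ s ∈ Z n k x, (P s).card ≤ (card A).factorial * (card B).factorial := by
    rw [← hbi]
    refine (card_le_univ _).trans (le_of_eq ?_)
    rw [Fintype.card_prod, Fintype.card_numbering, Fintype.card_numbering]
  have hterm : ∀ s ∈ Z n k x, (card A).factorial * (card B).factorial ≤ W * (P s).card := by
    intro s hs
    simp only [Z, mem_filter, mem_univ, true_and] at hs
    have hne : s.Nonempty := by
      rw [← card_pos]; omega
    have c1 := card_add x hx s
    have c3 := nonempty_neg x hx s hs.2 hne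
    have c4 := nonempty_pos x hx s hs.2 hne
    have hPs : (P s).card = ((s.subtype fun i => x i < 0).card.factorial *
        (card A - (s.subtype fun i => x i < 0).card).factorial) *
        ((s.subtype fun i => 0 < x i).card.factorial *
        (card B - (s.subtype fun i => 0 < x i).card).factorial) := by
      simp only [P, card_product, Numbering.card_prefixed]
      rfl
    have i1 := Nat.choose_mul_factorial_mul_factorial (n := card A)
      (card_le_univ (s.subtype fun i => x i < 0))
    have i2 := Nat.choose_mul_factorial_mul_factorial (n := card B)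
      (card_le_univ (s.subtype fun i => 0 < x i))
    have h5 := hW (card A) (card B) _ _ hcard (c1.trans hs.1) c3 c4
    rw [hPs, ← i1, ← i2]
    calc _ = ((card A).choose (s.subtype fun i => x i < 0).card *
          (card B).choose (s.subtype fun i => 0 < x i).card) *
          (((s.subtype fun i => x i < 0).card.factorial *
        (card A - (s.subtype fun i => x i < 0).card).factorial) *
        ((s.subtype fun i => 0 < x i).card.factorial *
        (card B - (s.subtype fun i => 0 < x i).card).factorial)) := by ring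
      _ ≤ _ := Nat.mul_le_mul_right _ h5
  have hsum : (Z n k x).card * ((card A).factorial * (card B).factorial) ≤
      W * ((card A).factorial * (card B).factorial) := by
    calc (Z n k x).card * ((card A).factorial * (card B).factorial) =
        ∑ s ∈ Z n k x, (card A).factorial * (card B).factorial := by
          rw [sum_const, smul_eq_mul]
      _ ≤ ∑ s ∈ Z n k x, W * (P s).card := sum_le_sum hterm
      _ = W * ∑ s ∈ Z n k x, (P s).card := by rw [mul_sum]
      _ ≤ _ := Nat.mul_le_mul_left _ hle
  exact Nat.le_of_mul_le_mul_right hsum (by positivity)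

end Pool.Agent.R628.UF
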