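import Pool.Agent.R628.UF.Bin
import Pool.Agent.R628.UF.Lym

/-!
# Unit-free sets of vertices of weight `k`
-/

set_option autoImplicit false

namespace Pool.Agent.R628.UF

open Finset

/-- `v` is a vertex of the cube `[0,1]ⁿ` -/
def IsVertex {n : ℕ} (v : Fin n → ℝ) : Prop := ∀ i, v i = 0 ∨ v i = 1

/-- the number of coordinates equal to `1` -/
noncomputable def weight {n : ℕ} (v : Fin n → ℝ) : ℕ := Nat.card {i : Fin n // v i = 1}

/-- no unit vector `e_i` lies in the real span of `S` -/
def UnitFree {n : ℕ} (S : Set (Fin n → ℝ)) : Prop :=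
  ∀ i : Fin n, (Pi.single i (1 : ℝ) : Fin n → ℝ) ∉ Submodule.span ℝ S

/-- the scalar product with `x`, as a functional -/
noncomputable def dot {n : ℕ} (x : Fin n → ℝ) : (Fin n → ℝ) →ₗ[ℝ] ℝ :=
  ∑ i, x i • LinearMap.proj i

theorem dot_apply {n : ℕ} (x v : Fin n → ℝ) : dot x v = ∑ i, x i * v i := by
  simp [dot, LinearMap.sum_apply]

theorem dot_single {n : ℕ} (x : Fin n → ℝ) (i : Fin n) : dot x (Pi.single i 1) = x i := by
  rw [dot_apply, Finset.sum_eq_single i]
  · simp
  · intro j _ hj; simp [Pi.single_eq_of_ne hj]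
  · intro h; exact absurd (mem_univ i) h

theorem unitFree_of_dot {n : ℕ} (S : Set (Fin n → ℝ)) (x : Fin n → ℝ) (hx : ∀ i, x i ≠ 0)
    (h : ∀ v ∈ S, dot x v = 0) : UnitFree S := by
  intro i hi
  have h1 : Submodule.span ℝ S ≤ LinearMap.ker (dot x) :=
    Submodule.span_le.2 fun v hv => LinearMap.mem_ker.2 (h v hv)
  have h2 := LinearMap.mem_ker.1 (h1 hi)
  rw [dot_single] at h2
  exact hx i h2

/-- a unit-free set is orthogonal to a vector without zero coordinates -/
theorem exists_dot {n : ℕ} (S : Set (Fin n → ℝ)) (hS : UnitFree S) :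
    ∃ x : Fin n → ℝ, (∀ i, x i ≠ 0) ∧ ∀ v ∈ S, dot x v = 0 := by
  have h1 : ∀ i : Fin n, ∃ x : Fin n → ℝ, x i ≠ 0 ∧ ∀ v ∈ S, dot x v = 0 := by
    intro i
    obtain ⟨f, hf, hle⟩ := Submodule.exists_le_ker_of_notMem (hS i)
    have hfd : ∀ v, f v = dot (fun j => f (Pi.single j 1)) v := by
      intro v
      rw [dot_apply]
      conv_lhs => rw [← Finset.univ_sum_single v, map_sum]
      refine Finset.sum_congr rfl fun j _ => ?_
      have : (Pi.single j (v j) : Fin n → ℝ) = v j • Pi.single j (1:ℝ) := by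
        rw [← Pi.single_smul]; simp
      rw [this, map_smul, smul_eq_mul, mul_comm]
    refine ⟨fun j => f (Pi.single j 1), hf, fun v hv => ?_⟩
    rw [← hfd]
    exact LinearMap.mem_ker.1 (hle (Submodule.subset_span hv))
  have h2 : ∀ T : Finset (Fin n), ∃ x : Fin n → ℝ, (∀ i ∈ T, x i ≠ 0) ∧ ∀ v ∈ S, dot x v = 0 := by
    classical
    intro T
    induction T using Finset.induction_on with
    | empty => exact ⟨0, by simp, fun v _ => by rw [dot_apply]; simp⟩
    | insert j T _ ih =>
      obtain ⟨x, hx1, hx2⟩ := ih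
      obtain ⟨y, hy1, hy2⟩ := h1 j
      -- choose c outside of a finite set
      obtain ⟨c, hc⟩ := Infinite.exists_notMem_finset
        ((insert j T).image fun i => -(x i) / y i)
      refine ⟨fun i => x i + c * y i, ?_, ?_⟩
      · intro i hi h0
        dsimp only at h0
        by_cases hyi : y i = 0
        · rw [hyi, mul_zero, add_zero] at h0
          rcases Finset.mem_insert.1 hi with h3 | h3
          · rw [h3] at hyi; exact hy1 hyi
          · exact hx1 i h3 h0
        · apply hc
          rw [Finset.mem_image]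
          refine ⟨i, hi, ?_⟩
          field_simp
          linarith
      · intro v hv
        have e1 := hx2 v hv
        have e2 := hy2 v hv
        rw [dot_apply] at e1 e2 ⊢
        have : ∑ i, (x i + c * y i) * v i = ∑ i, x i * v i + c * ∑ i, y i * v i := by
          rw [Finset.mul_sum, ← Finset.sum_add_distrib]
          exact Finset.sum_congr rfl fun i _ => by ring
        rw [this, e1, e2]; simp
  obtain ⟨x, hx1, hx2⟩ := h2 univ
  exact ⟨x, fun i => hx1 i (mem_univ i), hx2⟩

/-- the indicator vector of a set -/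
noncomputable def chi {n : ℕ} (s : Finset (Fin n)) : Fin n → ℝ := fun i => if i ∈ s then 1 else 0

theorem chi_injective {n : ℕ} : Function.Injective (chi (n := n)) := by
  intro s t h
  ext i
  have := congrFun h i
  by_cases h1 : i ∈ s <;> by_cases h2 : i ∈ t <;> simp_all [chi]

theorem chi_vertex {n : ℕ} (s : Finset (Fin n)) : IsVertex (chi s) := by
  intro i
  by_cases h1 : i ∈ s <;> simp [chi, h1]

theorem weight_chi {n : ℕ} (s : Finset (Fin n)) : weight (chi s) = s.card := by
  unfold weight chi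
  rw [Nat.card_eq_fintype_card, Fintype.card_subtype]
  congr 1
  ext i
  by_cases h1 : i ∈ s <;> simp [h1]

theorem dot_chi {n : ℕ} (x : Fin n → ℝ) (s : Finset (Fin n)) : dot x (chi s) = ∑ i ∈ s, x i := by
  rw [dot_apply]
  simp [chi]

theorem exists_chi {n : ℕ} (v : Fin n → ℝ) (hv : IsVertex v) : ∃ s : Finset (Fin n), chi s = v := by
  classical
  refine ⟨Finset.univ.filter (fun i : Fin n => v i = 1), ?_⟩
  funext i
  rcases hv i with h | h
  · simp [chi, h]
  · simp [chi, h]

/-- upper bound for sets of vertices with support in a family -/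
theorem ncard_le {n : ℕ} (S : Set (Fin n → ℝ)) (hS : ∀ v ∈ S, IsVertex v) (F : Finset (Finset (Fin n)))
    (hF : ∀ s : Finset (Fin n), chi s ∈ S → s ∈ F) : S.ncard ≤ F.card := by
  classical
  have h1 : S ⊆ ↑(F.image chi) := by
    intro v hv
    obtain ⟨s, rfl⟩ := exists_chi v (hS v hv)
    rw [Finset.mem_coe, Finset.mem_image]
    exact ⟨s, hF s hv, rfl⟩
  refine (Set.ncard_le_ncard h1 (Finset.finite_toSet _)).trans ?_
  rw [Set.ncard_coe_finset]
  exact Finset.card_image_le

/-- the upper bound -/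
theorem upper {n k W : ℕ} (hk : 1 ≤ k)
    (hW : ∀ a b j l : ℕ, a + b = n → j + l = k → 1 ≤ j → 1 ≤ l → a.choose j * b.choose l ≤ W)
    (S : Set (Fin n → ℝ)) (hS : ∀ v ∈ S, IsVertex v ∧ weight v = k) (hU : UnitFree S) :
    S.ncard ≤ W := by
  obtain ⟨x, hx, hxS⟩ := exists_dot S hU
  refine (ncard_le S (fun v hv => (hS v hv).1) (Z n k x) ?_).trans (card_Z_le hk x hx W hW)
  intro s hs
  rw [Z, Finset.mem_filter]
  refine ⟨mem_univ _, ?_, ?_⟩
  · rw [← weight_chi]; exact (hS _ hs).2
  · rw [← dot_chi]; exact hxS _ hs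

/-- the family for the lower bound -/
theorem lower (n k m : ℕ) (hk : 2 ≤ k) (hm : m ≤ n) :
    ∃ S : Set (Fin n → ℝ), (∀ v ∈ S, IsVertex v ∧ weight v = k) ∧ UnitFree S ∧
      S.ncard = m * (n - m).choose (k - 1) := by
  classical
  let A : Finset (Fin n) := {i : Fin n | (i : ℕ) < m}
  have hAc : A.card = m := by
    have : A = Finset.univ.filter (fun i : Fin n => (i : ℕ) < m) := rfl
    rw [this, Fin.card_filter_val_lt]
    omega
  have hBc : (Aᶜ).card = n - m := by rw [card_compl, hAc, Fintype.card_fin]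
  let F : Finset (Finset (Fin n) × Finset (Fin n)) := powersetCard 1 A ×ˢ powersetCard (k - 1) Aᶜ
  have hFc : F.card = m * (n - m).choose (k - 1) := by
    simp only [F, card_product, card_powersetCard, hAc, hBc, Nat.choose_one_right]
  let g : Finset (Fin n) × Finset (Fin n) → (Fin n → ℝ) := fun p => chi (p.1 ∪ p.2)
  have hg : Set.InjOn g ↑F := by
    rintro ⟨p1, p2⟩ hp ⟨q1, q2⟩ hq h
    simp only [F, Finset.mem_coe, mem_product, mem_powersetCard] at hp hq
    have h1 : p1 ∪ p2 = q1 ∪ q2 := chi_injective h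
    have r1 : ∀ a b : Finset (Fin n), a ⊆ A → b ⊆ Aᶜ → (a ∪ b) ∩ A = a := by
      intro a b ha hb
      ext i
      simp only [mem_inter, mem_union]
      constructor
      · rintro ⟨h2 | h2, h3⟩
        · exact h2
        · exact absurd h3 (mem_compl.1 (hb h2))
      · intro h2; exact ⟨Or.inl h2, ha h2⟩
    have r2 : ∀ a b : Finset (Fin n), a ⊆ A → b ⊆ Aᶜ → (a ∪ b) ∩ Aᶜ = b := by
      intro a b ha hb
      ext i
      simp only [mem_inter, mem_union]
      constructor
      · rintro ⟨h2 | h2, h3⟩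
        · exact absurd (ha h2) (mem_compl.1 h3)
        · exact h2
      · intro h2; exact ⟨Or.inr h2, hb h2⟩
    have e1 : p1 = q1 := by
      rw [← r1 p1 p2 hp.1.1 hp.2.1, h1, r1 q1 q2 hq.1.1 hq.2.1]
    have e2 : p2 = q2 := by
      rw [← r2 p1 p2 hp.1.1 hp.2.1, h1, r2 q1 q2 hq.1.1 hq.2.1]
    rw [e1, e2]
  refine ⟨g '' ↑F, ?_, ?_, ?_⟩
  · rintro v ⟨⟨p1, p2⟩, hp, rfl⟩
    simp only [F, Finset.mem_coe, mem_product, mem_powersetCard] at hp
    refine ⟨chi_vertex _, ?_⟩
    rw [weight_chi, card_union_of_disjoint, hp.1.2, hp.2.2]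
    · omega
    · rw [disjoint_left]
      intro i h1 h2
      exact mem_compl.1 (hp.2.1 h2) (hp.1.1 h1)
  · refine unitFree_of_dot _ (fun i => if i ∈ A then -((k : ℝ) - 1) else 1) ?_ ?_
    · intro i
      have hk' : (2 : ℝ) ≤ k := by exact_mod_cast hk
      by_cases hi : i ∈ A
      · simp only [hi, if_true]
        intro h; linarith
      · simp only [hi, if_false]
        norm_num
    · rintro v ⟨⟨p1, p2⟩, hp, rfl⟩
      simp only [F, Finset.mem_coe, mem_product, mem_powersetCard] at hp
      have hd : Disjoint p1 p2 := by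
        rw [disjoint_left]
        intro i h1 h2
        exact mem_compl.1 (hp.2.1 h2) (hp.1.1 h1)
      rw [dot_chi, sum_union hd]
      have s1 : ∑ i ∈ p1, (if i ∈ A then -((k : ℝ) - 1) else 1) = -((k : ℝ) - 1) := by
        rw [sum_congr rfl fun i hi => if_pos (hp.1.1 hi), sum_const, hp.1.2]
        simp
      have s2 : ∑ i ∈ p2, (if i ∈ A then -((k : ℝ) - 1) else 1) = ((k : ℝ) - 1) := by
        rw [sum_congr rfl fun i hi => if_neg (mem_compl.1 (hp.2.1 hi)), sum_const, hp.2.2]
        rw [nsmul_eq_mul, Nat.cast_sub (by omega)]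
        simp
      rw [s1, s2]; ring
  · rw [Set.InjOn.ncard_image hg, Set.ncard_coe_finset, hFc]

/-- the sizes of the unit-free sets of vertices of weight `k` -/
def sizes (n k : ℕ) : Set ℕ :=
  {m | ∃ S : Set (Fin n → ℝ), (∀ v ∈ S, IsVertex v ∧ weight v = k) ∧ UnitFree S ∧ S.ncard = m}

theorem main (n k : ℕ) (hk : 2 ≤ k) :
    IsGreatest (sizes n k) (n / k * (n - n / k).choose (k - 1)) := by
  constructor
  · exact lower n k (n / k) hk (Nat.div_le_self n k)
  · rintro m ⟨S, hS, hU, rfl⟩
    exact upper (by omega) (fun a b j l hab hjl hj hl => prod_le n k a b j l hab hjl hj hl) S hS hU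

theorem main_one (n : ℕ) : IsGreatest (sizes n 1) 0 := by
  constructor
  · exact ⟨∅, by simp, fun i h => by
      rw [Submodule.span_empty, Submodule.mem_bot] at h
      have := congrFun h i
      simp at this, by simp⟩
  · rintro m ⟨S, hS, hU, rfl⟩
    exact upper le_rfl (fun a b j l _ hjl hj hl => by omega) S hS hU

end Pool.Agent.R628.UF
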